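import Pool.Agent.Lib_helper59.A1.Stmts
import Pool.Agent.Lib_helper28.A1.Sgn

/-!
# MP_859019, project A1, blocks KAP and SCA

`p (c, e, 0)` does not depend on `e`; the exceptional set is finite; a scalar first factor.
-/

set_option autoImplicit false
set_option linter.unusedSectionVars false
set_option linter.unusedVariables false

open scoped BigOperators ComplexOrder Kronecker MatrixOrder
open MeasureTheory Set Matrix

namespace Pool.Agent.A1W

open Pool.Agent.RC hiding dg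
open Pool.Agent.A1
open Pool.Agent.Lib_helper59.Lieb (rtr rtr_add rtr_sub rtr_smul rtr_mul_comm dg
  exists_spectral_pos)

section

variable {ι κ : Type} [Fintype ι] [DecidableEq ι] [Fintype κ] [DecidableEq κ]

/-! ### the exceptional set -/

theorem kap_finite {R D : Matrix κ κ ℂ} (hR : R.PosDef) :
    {c : ℝ | ¬ IsUnit (Wc R D c).det}.Finite := by
  have hRu : IsUnit R.det := (Matrix.isUnit_iff_isUnit_det _).1 hR.isUnit
  have h1 : {c : ℝ | ¬ IsUnit (Wc R D c).det} ⊆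
      (fun c : ℝ => (c : ℂ)) ⁻¹' (spectrum ℂ (R⁻¹ * D)) := by
    intro c hc
    simp only [mem_setOf_eq] at hc
    simp only [mem_preimage]
    rw [spectrum.mem_iff]
    intro hu
    apply hc
    have e : Wc R D c = R * (-(algebraMap ℂ (Matrix κ κ ℂ) (c : ℂ) - R⁻¹ * D)) := by
      rw [Wc, neg_sub, Matrix.mul_sub, ← Matrix.mul_assoc, Matrix.mul_nonsing_inv _ hRu,
        Matrix.one_mul, Algebra.algebraMap_eq_smul_one, Matrix.mul_smul, Matrix.mul_one]
    rw [e, ← Matrix.isUnit_iff_isUnit_det]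
    exact hR.isUnit.mul hu.neg
  exact ((Matrix.finite_spectrum (R⁻¹ * D)).preimage
    (Complex.ofReal_injective.injOn)).subset h1

/-! ### block sums -/

/-- `∑ Pᵢ ⊗ Aᵢ`, `Pᵢ` the projection on the `i`-th column of `U` -/
noncomputable def bl (U : Matrix ι ι ℂ) (A : ι → Matrix κ κ ℂ) : Matrix (ι × κ) (ι × κ) ℂ :=
  ∑ i, (U * Matrix.single i i 1 * Uᴴ) ⊗ₖ A i

theorem bl_mul {U : Matrix ι ι ℂ} (hU : Uᴴ * U = 1) (A B : ι → Matrix κ κ ℂ) :
    bl U A * bl U B = bl U (fun i => A i * B i) := by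
  unfold bl
  rw [Finset.sum_mul]
  refine Finset.sum_congr rfl fun i _ => ?_
  rw [Finset.mul_sum, Finset.sum_eq_single i]
  · rw [← Matrix.mul_kronecker_mul]
    congr 1
    calc U * Matrix.single i i 1 * Uᴴ * (U * Matrix.single i i 1 * Uᴴ)
        = U * Matrix.single i i 1 * (Uᴴ * U) * Matrix.single i i 1 * Uᴴ := by
          simp only [Matrix.mul_assoc]
      _ = U * (Matrix.single i i 1 * Matrix.single i i 1) * Uᴴ := by
          rw [hU, Matrix.mul_one]; simp only [Matrix.mul_assoc]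
      _ = U * Matrix.single i i 1 * Uᴴ := by
          rw [Matrix.single_mul_single_same, one_mul]
  · intro j _ hj
    rw [← Matrix.mul_kronecker_mul]
    have : U * Matrix.single i i 1 * Uᴴ * (U * Matrix.single j j 1 * Uᴴ) = 0 := by
      calc U * Matrix.single i i 1 * Uᴴ * (U * Matrix.single j j 1 * Uᴴ)
          = U * Matrix.single i i 1 * (Uᴴ * U) * Matrix.single j j 1 * Uᴴ := by
            simp only [Matrix.mul_assoc]
        _ = U * (Matrix.single i i 1 * Matrix.single j j 1) * Uᴴ := by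
            rw [hU, Matrix.mul_one]; simp only [Matrix.mul_assoc]
        _ = 0 := by
            rw [Matrix.single_mul_single_of_ne (h := hj.symm)]
            simp
    rw [this, Matrix.zero_kronecker]
  · intro h
    exact absurd (Finset.mem_univ i) h

theorem bl_dg (U : Matrix ι ι ℂ) (x : ι → ℝ) (W : Matrix κ κ ℂ) :
    (U * dg x * Uᴴ) ⊗ₖ W = bl U (fun i => x i • W) := by
  unfold bl
  have e : dg x = ∑ i, (x i : ℂ) • Matrix.single i i (1 : ℂ) := by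
    ext i j
    rw [Matrix.sum_apply]
    simp only [Matrix.smul_apply, Matrix.single_apply, smul_eq_mul, dg, Matrix.diagonal_apply]
    by_cases h : i = j
    · subst h
      rw [if_pos rfl, Finset.sum_eq_single i]
      · simp
      · intro b _ hb; simp [hb]
      · intro h; exact absurd (Finset.mem_univ _) h
    · rw [if_neg h]
      symm
      apply Finset.sum_eq_zero
      intro b _
      by_cases hb : b = i
      · subst hb; simp [h]
      · simp [hb]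
  rw [e, Matrix.mul_sum, Matrix.sum_mul]
  have h1 : ∀ (s : Finset ι), (∑ i ∈ s, U * ((x i : ℂ) • Matrix.single i i (1 : ℂ)) * Uᴴ) ⊗ₖ W =
      ∑ i ∈ s, (U * Matrix.single i i 1 * Uᴴ) ⊗ₖ (x i • W) := by
    intro s
    induction s using Finset.induction_on with
    | empty => simp [Matrix.zero_kronecker]
    | insert a s ha ih =>
      rw [Finset.sum_insert ha, Finset.sum_insert ha, Matrix.add_kronecker, ih]
      congr 1
      rw [Matrix.mul_smul, Matrix.smul_mul, coe_smul_mat, Matrix.smul_kronecker,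
        Matrix.kronecker_smul]
  exact h1 Finset.univ

theorem bl_one {U : Matrix ι ι ℂ} (hU' : U * Uᴴ = 1) :
    bl U (fun _ => (1 : Matrix κ κ ℂ)) = 1 := by
  have h := bl_dg (κ := κ) U (fun _ => 1) 1
  have e : (dg (fun _ => (1 : ℝ)) : Matrix ι ι ℂ) = 1 := by simp [dg]
  rw [e, Matrix.mul_one, hU', Matrix.one_kronecker_one] at h
  simp only [one_smul] at h
  exact h.symm

theorem bl_add (U : Matrix ι ι ℂ) (A B : ι → Matrix κ κ ℂ) :
    bl U A + bl U B = bl U (fun i => A i + B i) := by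
  unfold bl
  rw [← Finset.sum_add_distrib]
  refine Finset.sum_congr rfl fun i _ => ?_
  rw [Matrix.kronecker_add]

theorem bl_posDef {U : Matrix ι ι ℂ} (hU : Uᴴ * U = 1) (hU' : U * Uᴴ = 1)
    {S : ι → Matrix κ κ ℂ} (hS : ∀ i, (S i).PosDef) : (bl U S).PosDef := by
  have h1 : (bl U S).PosSemidef := by
    unfold bl
    refine Matrix.posSemidef_sum _ fun i _ => ?_
    refine Matrix.PosSemidef.kronecker ?_ (hS i).posSemidef
    have h2 : (Matrix.single i i (1 : ℂ)).PosSemidef := by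
      have : Matrix.single i i (1 : ℂ) = Matrix.single i i 1 * (Matrix.single i i 1)ᴴ := by
        rw [Matrix.conjTranspose_single, star_one, Matrix.single_mul_single_same, one_mul]
      rw [this]
      exact Matrix.posSemidef_self_mul_conjTranspose _
    exact h2.mul_mul_conjTranspose_same U
  refine h1.posDef_iff_isUnit.mpr ?_
  have h3 : bl U S * bl U (fun i => (S i)⁻¹) = 1 := by
    rw [bl_mul hU]
    have : (fun i => S i * (S i)⁻¹) = fun _ => (1 : Matrix κ κ ℂ) := by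
      funext i
      exact Matrix.mul_nonsing_inv _ ((Matrix.isUnit_iff_isUnit_det _).1 (hS i).isUnit)
    rw [this, bl_one hU']
  exact IsUnit.of_mul_eq_one _ h3

theorem bl_isS {U : Matrix ι ι ℂ} (hU : Uᴴ * U = 1) (hU' : U * Uᴴ = 1)
    {J H S : ι → Matrix κ κ ℂ} (h : ∀ i, IsS (J i) (H i) (S i)) :
    IsS (bl U J) (bl U H) (bl U S) := by
  refine ⟨bl_posDef hU hU' fun i => (h i).pos, ?_, ?_⟩
  · rw [bl_mul hU, bl_mul hU, bl_mul hU]
    have : (fun i => J i * S i * J i * S i) = fun _ => (1 : Matrix κ κ ℂ) := by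
      funext i; exact (h i).inv
    rw [this, bl_one hU']
  · rw [bl_mul hU, bl_mul hU, bl_mul hU, bl_mul hU]
    congr 1
    funext i
    exact (h i).rel

theorem trace_bl (D : Matrix ι ι ℂ) (W : Matrix κ κ ℂ) (U : Matrix ι ι ℂ)
    (S : ι → Matrix κ κ ℂ) :
    ((D ⊗ₖ W) * bl U S).trace =
      ∑ i, (D * (U * Matrix.single i i 1 * Uᴴ)).trace * (W * S i).trace := by
  unfold bl
  rw [Finset.mul_sum, Matrix.trace_sum]
  refine Finset.sum_congr rfl fun i _ => ?_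
  rw [← Matrix.mul_kronecker_mul, Matrix.trace_kronecker]

theorem trace_real {A B : Matrix κ κ ℂ} (hA : A.IsHermitian) (hB : B.IsHermitian) :
    ((A * B).trace).im = 0 := by
  have h1 : star ((A * B).trace) = (A * B).trace := by
    rw [← Matrix.trace_conjTranspose, Matrix.conjTranspose_mul, hA.eq, hB.eq,
      Matrix.trace_mul_comm]
  exact Complex.conj_eq_iff_im.1 h1

theorem trW_eq {W H H' S S' : Matrix κ κ ℂ} (hW : W.IsHermitian) {x : ℝ} (hx : 0 < x)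
    (h : IsS (x • W) H S) (h' : IsS (x • W) H' S') : (W * S).trace = (W * S').trace := by
  have h1 := rtr_J_eq h h'
  rw [Matrix.smul_mul, Matrix.smul_mul, rtr_smul, rtr_smul] at h1
  have h2 : rtr (W * S) = rtr (W * S') := mul_left_cancel₀ hx.ne' h1
  refine Complex.ext h2 ?_
  rw [trace_real hW h.pos.1, trace_real hW h'.pos.1]

variable {R₁ D₁ : Matrix ι ι ℂ} {R₂ D₂ : Matrix κ κ ℂ}

theorem pc_zero_eq (hwi : WIStmt) (h₁ : SPair R₁ D₁) (h₂ : SPair R₂ D₂) {c : ℝ}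
    (hc : c ∈ Ioo (-1 : ℝ) 1) (hdet : IsUnit (Wc R₂ D₂ c).det) {U : Matrix ι ι ℂ} {x : ι → ℝ}
    (hU : Uᴴ * U = 1) (hU' : U * Uᴴ = 1) (hx : ∀ i, 0 < x i)
    (hX : Xc R₁ D₁ c = U * dg x * Uᴴ) {e : ℝ} (he : 0 < e) :
    ∃ (H S : ι → Matrix κ κ ℂ), (∀ i, IsS (x i • Wc R₂ D₂ c) (H i) (S i)) ∧
      pc R₁ D₁ R₂ D₂ c e 0 =
        (∑ i, (D₁ * (U * Matrix.single i i 1 * Uᴴ)).trace * (Wc R₂ D₂ c * S i).trace).re := by
  have hcI : c ∈ Icc (-1 : ℝ) 1 := ⟨hc.1.le, hc.2.le⟩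
  have hW := Wc_herm h₂ c
  have hex : ∀ i, ∃ S, IsS (x i • Wc R₂ D₂ c) (1 + e • x i • R₂) S := by
    intro i
    refine exists_isS ?_ ?_ ?_
    · exact Matrix.PosDef.one.add_posSemidef
        ((h₂.posDef.posSemidef.smul (hx i).le).smul he.le)
    · exact hW.smul (IsSelfAdjoint.all (x i))
    · rw [← coe_smul_mat, Matrix.det_smul]
      exact mul_ne_zero (pow_ne_zero _ (by exact_mod_cast (hx i).ne')) hdet.ne_zero
  choose S hS using hex
  refine ⟨_, S, hS, ?_⟩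
  have hJ : Jc R₁ D₁ R₂ D₂ c = bl U (fun i => x i • Wc R₂ D₂ c) := by
    rw [Jc, hX, bl_dg]
  have hN : Nt R₁ D₁ R₂ D₂ c e 0 = bl U (fun i => 1 + e • x i • R₂) := by
    rw [Nt, Mt, hX, Complex.ofReal_zero, zero_smul, add_zero, bl_dg, ← bl_one (κ := κ) hU',
      ← bl_add]
    congr 1
    unfold bl
    rw [Finset.smul_sum]
    refine Finset.sum_congr rfl fun i _ => ?_
    simp only [coe_smul_mat, Matrix.kronecker_smul]
  have hIs : IsS (Jc R₁ D₁ R₂ D₂ c) (Nt R₁ D₁ R₂ D₂ c e 0) (bl U S) := by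
    rw [hJ, hN]
    exact bl_isS hU hU' hS
  have h1 := ((hwi (ι × κ) (Nt R₁ D₁ R₂ D₂ c e 0) (Jc R₁ D₁ R₂ D₂ c) (Dc D₁ R₂ D₂ c)
    (Nt_posDef h₁ h₂ hcI he.le ⟨le_rfl, zero_le_one⟩) (Jc_herm h₁ h₂ c)
      (Dc_herm h₁ h₂ c)).2.1 (bl U S) hIs).2
  have h2 : pc R₁ D₁ R₂ D₂ c e 0 = ((Dc D₁ R₂ D₂ c * bl U S).trace).re := h1
  rw [h2, Dc, trace_bl]

end

/-- **block KAP** -/
theorem kap_stmt (hwi : WIStmt) : KAPStmt := by
  intro ι κ _ _ _ _ R₁ D₁ R₂ D₂ h₁ h₂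
  refine ⟨kap_finite h₂.posDef, fun c hc hdet => ?_⟩
  have hcI : c ∈ Icc (-1 : ℝ) 1 := ⟨hc.1.le, hc.2.le⟩
  obtain ⟨U, x, hU, hU', hx, hX⟩ := exists_spectral_pos (Xc_posDef h₁ hcI)
  refine ⟨pc R₁ D₁ R₂ D₂ c 1 0, fun e he => ?_⟩
  obtain ⟨H, S, hS, h3⟩ := pc_zero_eq hwi h₁ h₂ hc hdet hU hU' hx hX he
  obtain ⟨H', S', hS', h4⟩ := pc_zero_eq hwi h₁ h₂ hc hdet hU hU' hx hX one_pos
  rw [h3, h4]
  congr 1
  refine Finset.sum_congr rfl fun i _ => ?_
  rw [trW_eq (Wc_herm h₂ c) (hx i) (hS i) (hS' i)]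

/-- **block SCA** -/
theorem sca_stmt (hwi : WIStmt) : SCAStmt := by
  intro κ _ _ A₂ D₂ h₂ a ha c hc hdet e he t ht
  have hcI : c ∈ Icc (-1 : ℝ) 1 := ⟨hc.1.le, hc.2.le⟩
  have h₁ : SPair (1 : Matrix Unit Unit ℂ) ((a : ℂ) • 1) := by
    constructor
    · have e1 : (1 : Matrix Unit Unit ℂ) - (a : ℂ) • 1 = (1 - a) • 1 := by
        rw [coe_smul_mat, sub_smul, one_smul]
      rw [e1]
      exact Matrix.PosDef.one.smul (by linarith [ha.2])
    · have e1 : (1 : Matrix Unit Unit ℂ) + (a : ℂ) • 1 = (1 + a) • 1 := by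
        rw [coe_smul_mat, add_smul, one_smul]
      rw [e1]
      exact Matrix.PosDef.one.smul (by linarith [ha.1])
  set R₁ : Matrix Unit Unit ℂ := 1 with hR₁
  set D₁ : Matrix Unit Unit ℂ := (a : ℂ) • 1 with hD₁
  have hca : 0 < 1 + c * a := by
    have h1 : |c| < 1 := abs_lt.2 ⟨hc.1, hc.2⟩
    have h2 : |a| < 1 := abs_lt.2 ⟨ha.1, ha.2⟩
    have h3 : |c * a| < 1 := by
      rw [abs_mul]
      calc |c| * |a| ≤ |c| * 1 := mul_le_mul_of_nonneg_left h2.le (abs_nonneg _)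
        _ < 1 := by rw [mul_one]; exact h1
    linarith [neg_abs_le (c * a)]
  have hX : Xc R₁ D₁ c = (1 + c * a) • (1 : Matrix Unit Unit ℂ) := by
    rw [Xc, hD₁, hR₁, coe_smul_mat, coe_smul_mat, smul_smul, add_smul, one_smul]
  have hJu : IsUnit (Jc R₁ D₁ A₂ D₂ c).det := by
    have h1 : IsUnit (Xc R₁ D₁ c).det :=
      (Matrix.isUnit_iff_isUnit_det _).1 (Xc_posDef h₁ hcI).isUnit
    rw [Jc, det_kronecker]
    exact (h1.pow _).mul (hdet.pow _)
  have h0 : (0 : ℝ) ∈ Icc (0 : ℝ) 1 := ⟨le_rfl, zero_le_one⟩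
  obtain ⟨S, hS⟩ := exists_isS (Nt_posDef h₁ h₂ hcI he.le h0) (Jc_herm h₁ h₂ c) hJu.ne_zero
  have hDJ : Dc D₁ A₂ D₂ c = (a / (1 + c * a)) • Jc R₁ D₁ A₂ D₂ c := by
    have e1 : D₁ = (a / (1 + c * a)) • Xc R₁ D₁ c := by
      rw [hX, smul_smul, div_mul_cancel₀ _ hca.ne', hD₁, coe_smul_mat]
    rw [Jc, Dc]
    conv_lhs => rw [e1]
    rw [Matrix.smul_kronecker]
  have hNt : Nt R₁ D₁ A₂ D₂ c e t =
      Nt R₁ D₁ A₂ D₂ c e 0 + (t * e * (a / (1 + c * a))) • Jc R₁ D₁ A₂ D₂ c := by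
    have e1 : Nt R₁ D₁ A₂ D₂ c e t = Nt R₁ D₁ A₂ D₂ c e 0 + (t * e) • Dc D₁ A₂ D₂ c := by
      rw [← coe_smul_mat]
      unfold Nt Mt
      push_cast
      module
    rw [e1, hDJ, smul_smul]
  have hSt : IsS (Jc R₁ D₁ A₂ D₂ c) (Nt R₁ D₁ A₂ D₂ c e t) S := by
    rw [hNt]
    exact hS.add_J _
  have h5 := ((hwi (Unit × κ) (Nt R₁ D₁ A₂ D₂ c e t) (Jc R₁ D₁ A₂ D₂ c) (Dc D₁ A₂ D₂ c)
    (Nt_posDef h₁ h₂ hcI he.le ht) (Jc_herm h₁ h₂ c) (Dc_herm h₁ h₂ c)).2.1 S hSt).2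
  have h6 := ((hwi (Unit × κ) (Nt R₁ D₁ A₂ D₂ c e 0) (Jc R₁ D₁ A₂ D₂ c) (Dc D₁ A₂ D₂ c)
    (Nt_posDef h₁ h₂ hcI he.le h0) (Jc_herm h₁ h₂ c) (Dc_herm h₁ h₂ c)).2.1 S hS).2
  exact h5.trans h6.symm

end Pool.Agent.A1W
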